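import Pool.Agent.W355.FR.Stm

/-!
Project FR, piece LOC: the reduction type at a prime dividing exactly the value of a factor of
the discriminant.
-/

namespace Pool.Agent.W921.FR.LOC

open Polynomial
open Pool.Agent.W355.FR

theorem hv_add (D : ℕ) (f g : ℤ[X]) (a b : ℤ) :
    hv D (f + g) a b = hv D f a b + hv D g a b := by
  unfold hv
  rw [← Finset.sum_add_distrib]
  refine Finset.sum_congr rfl fun i _ => ?_
  rw [coeff_add]; ring

theorem hv_C_mul (D : ℕ) (c : ℤ) (f : ℤ[X]) (a b : ℤ) :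
    hv D (C c * f) a b = c * hv D f a b := by
  unfold hv
  rw [Finset.mul_sum]
  refine Finset.sum_congr rfl fun i _ => ?_
  rw [coeff_C_mul]; ring

theorem hv_zero (D : ℕ) (a b : ℤ) : hv D 0 a b = 0 := by
  unfold hv
  simp

theorem hv_zero_one (a b : ℤ) : hv 0 1 a b = 1 := by
  unfold hv
  simp

theorem hv_pow (h : P_HVM) (P : ℤ[X]) (a b : ℤ) (n : ℕ) :
    hv (n * P.natDegree) (P ^ n) a b = hv P.natDegree P a b ^ n := by
  induction n with
  | zero => simpa using hv_zero_one a b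
  | succ n ih =>
    rw [pow_succ, pow_succ, Nat.succ_mul,
      h _ _ _ _ (natDegree_pow_le) le_rfl, ih]

/-- A factor divides. -/
theorem dvd_hv (h : P_HVM) (N : ℕ) (P F : ℤ[X]) (hP : P ≠ 0) (hF : F.natDegree ≤ N)
    (hPF : P ∣ F) (a b : ℤ) : hv P.natDegree P a b ∣ hv N F a b := by
  obtain ⟨Q, rfl⟩ := hPF
  by_cases hQ : Q = 0
  · subst hQ
    rw [mul_zero, hv_zero]
    exact dvd_zero _
  · rw [natDegree_mul hP hQ] at hF
    have e : N = P.natDegree + (N - P.natDegree) := by omega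
    rw [e, h _ _ _ _ le_rfl (by omega)]
    exact Dvd.intro _ rfl

/-- the discriminant form -/
theorem hv_disc (h : P_HVM) (k : ℕ) (A B : ℤ[X]) (hA : A.natDegree ≤ 4 * k)
    (hB : B.natDegree ≤ 6 * k) (a b : ℤ) :
    hv (12 * k) (4 * A ^ 3 + 27 * B ^ 2) a b =
      4 * (hv (4 * k) A a b) ^ 3 + 27 * (hv (6 * k) B a b) ^ 2 := by
  have e1 : (4 * A ^ 3 + 27 * B ^ 2 : ℤ[X]) = C 4 * (A * A * A) + C 27 * (B * B) := by
    have h4 : (C 4 : ℤ[X]) = 4 := by simp
    have h27 : (C 27 : ℤ[X]) = 27 := by simp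
    rw [h4, h27]; ring
  rw [e1, hv_add, hv_C_mul, hv_C_mul]
  have hAA : (A * A).natDegree ≤ 4 * k + 4 * k := by
    refine natDegree_mul_le.trans ?_
    omega
  have e2 : hv (12 * k) (A * A * A) a b = hv (4 * k) A a b ^ 3 := by
    have : 12 * k = (4 * k + 4 * k) + 4 * k := by ring
    rw [this, h _ _ _ _ hAA hA, h _ _ _ _ hA hA]
    ring
  have e3 : hv (12 * k) (B * B) a b = hv (6 * k) B a b ^ 2 := by
    have : 12 * k = 6 * k + 6 * k := by ring
    rw [this, h _ _ _ _ hB hB]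
    ring
  rw [e2, e3]

/-- the key lemma: powers of a prime exactly dividing the value of `P` -/
theorem key (h : P_HVM) (hres : P_RES) (N : ℕ) (P F : ℤ[X]) (hP : Irreducible P)
    (hd : 0 < P.natDegree) (hF : F.natDegree ≤ N) (hF0 : F ≠ 0) :
    ∃ z : ℕ, ∀ p : ℕ, p.Prime → z < p → ∀ a b : ℤ, Int.gcd a b = 1 →
      (p : ℤ) ∣ hv P.natDegree P a b → ¬ (p : ℤ) ^ 2 ∣ hv P.natDegree P a b →
      ∀ e : ℕ, (p : ℤ) ^ e ∣ hv N F a b → P ^ e ∣ F := by
  obtain ⟨n, F1, hF1, rfl⟩ := WfDvdMonoid.max_power_factor hF0 hP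
  have hF10 : F1 ≠ 0 := right_ne_zero_of_mul hF0
  have hPn : P ^ n ≠ 0 := left_ne_zero_of_mul hF0
  rw [natDegree_mul hPn hF10, natDegree_pow] at hF
  have hprim : P.IsPrimitive := hP.isPrimitive hd.ne'
  have hPQ : Irreducible (P.map (Int.castRingHom ℚ)) :=
    (IsPrimitive.Int.irreducible_iff_irreducible_map_cast hprim).1 hP
  have hnd : ¬ P.map (Int.castRingHom ℚ) ∣ F1.map (Int.castRingHom ℚ) := by
    rw [← IsPrimitive.Int.dvd_iff_map_cast_dvd_map_cast P F1 hprim]
    exact hF1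
  have hcop : IsCoprime (P.map (Int.castRingHom ℚ)) (F1.map (Int.castRingHom ℚ)) :=
    hPQ.coprime_iff_not_dvd.2 hnd
  obtain ⟨z, hz⟩ := hres h (N - n * P.natDegree) P F1 hd (by omega) hcop
  refine ⟨z, ?_⟩
  intro p hp hzp a b hab h1 h2 e he
  have hpZ : Prime (p : ℤ) := Nat.prime_iff_prime_int.1 hp
  have h3 := hz p hp hzp a b hab h1
  have e1 : N = n * P.natDegree + (N - n * P.natDegree) := by omega
  rw [e1, h _ _ _ _ natDegree_pow_le (by omega), hv_pow h] at he
  have h4 := hpZ.pow_dvd_of_dvd_mul_right e h3 he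
  obtain ⟨c, hc⟩ := h1
  have hpc : ¬ (p : ℤ) ∣ c := by
    rintro ⟨c', rfl⟩
    apply h2
    rw [hc]
    exact ⟨c', by ring⟩
  rw [hc, mul_pow] at h4
  have h5 : ¬ (p : ℤ) ∣ c ^ n := fun hh => hpc (hpZ.dvd_of_dvd_pow hh)
  have h6 := hpZ.pow_dvd_of_dvd_mul_right e h5 h4
  have h7 : e ≤ n := (pow_dvd_pow_iff hpZ.ne_zero hpZ.not_unit).1 h6
  exact Dvd.dvd.mul_right (pow_dvd_pow P h7) F1

theorem pf : P_LOC := by
  intro hm hres k A B P hA hB hA0 hB0 hP hd hPD hmin
  obtain ⟨zA, hzA⟩ := key hm hres (4 * k) P A hP hd hA hA0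
  obtain ⟨zB, hzB⟩ := key hm hres (6 * k) P B hP hd hB hB0
  refine ⟨max zA zB, ?_⟩
  intro p hp hzp a b hab h1 h2
  have hpZ : Prime (p : ℤ) := Nat.prime_iff_prime_int.1 hp
  have hkA := hzA p hp (lt_of_le_of_lt (le_max_left _ _) hzp) a b hab h1 h2
  have hkB := hzB p hp (lt_of_le_of_lt (le_max_right _ _) hzp) a b hab h1 h2
  have hDdeg : (4 * A ^ 3 + 27 * B ^ 2 : ℤ[X]).natDegree ≤ 12 * k := by
    have h4 : (C 4 : ℤ[X]) = 4 := by simp
    have h27 : (C 27 : ℤ[X]) = 27 := by simp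
    rw [← h4, ← h27]
    refine (natDegree_add_le _ _).trans (max_le ?_ ?_)
    · refine (natDegree_C_mul_le _ _).trans (natDegree_pow_le.trans ?_)
      omega
    · refine (natDegree_C_mul_le _ _).trans (natDegree_pow_le.trans ?_)
      omega
  have hpD : (p : ℤ) ∣ 4 * (hv (4 * k) A a b) ^ 3 + 27 * (hv (6 * k) B a b) ^ 2 := by
    rw [← hv_disc hm k A B hA hB a b]
    exact h1.trans (dvd_hv hm (12 * k) P _ hP.ne_zero hDdeg hPD a b)
  refine ⟨hpD, ?_⟩
  by_cases hPA : P ∣ A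
  · -- additive
    have hwt : wt P A = 2 := by
      unfold wt
      exact if_pos hPA
    have hPprime : Prime P := hP.prime
    have hPB : P ∣ B := by
      have h3 : P ∣ 27 * B ^ 2 := by
        have h4 : P ∣ 4 * A ^ 3 := Dvd.dvd.mul_left (dvd_pow hPA (by norm_num)) _
        exact (dvd_add_right h4).1 hPD
      rcases hPprime.dvd_or_dvd h3 with h4 | h4
      · exfalso
        have h27 : (C 27 : ℤ[X]) = 27 := by simp
        rw [← h27] at h4
        have h5 : (C (27 : ℤ) : ℤ[X]) ≠ 0 := by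
          rw [Ne, C_eq_zero]; norm_num
        have h6 := natDegree_le_of_dvd h4 h5
        rw [natDegree_C] at h6
        omega
      · exact hPprime.dvd_of_dvd_pow h4
    have hpA : (p : ℤ) ∣ hv (4 * k) A a b := h1.trans (dvd_hv hm _ P _ hP.ne_zero hA hPA a b)
    have hpB : (p : ℤ) ∣ hv (6 * k) B a b := h1.trans (dvd_hv hm _ P _ hP.ne_zero hB hPB a b)
    have hm0 : ∀ (m : ℕ) (a' b' : ℤ), hv (4 * k) A a b = (p : ℤ) ^ (4 * m) * a' →
        hv (6 * k) B a b = (p : ℤ) ^ (6 * m) * b' →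
        a' = hv (4 * k) A a b ∧ b' = hv (6 * k) B a b := by
      intro m a' b' ha' hb'
      rcases Nat.eq_zero_or_pos m with rfl | hmpos
      · simp at ha' hb'
        exact ⟨ha'.symm, hb'.symm⟩
      · exfalso
        have h4 : P ^ 4 ∣ A := by
          apply hkA
          rw [ha']
          exact Dvd.dvd.mul_right (pow_dvd_pow _ (by omega)) _
        have h6 : P ^ 6 ∣ B := by
          apply hkB
          rw [hb']
          exact Dvd.dvd.mul_right (pow_dvd_pow _ (by omega)) _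
        exact hmin h4 h6
    rw [hwt]
    unfold condExp
    rw [if_neg, if_neg]
    · rintro ⟨m, a', b', ha', hb', hn⟩
      obtain ⟨h3, _⟩ := hm0 m a' b' ha' hb'
      rw [h3] at hn
      exact hn hpA
    · rintro ⟨m, a', b', ha', hb', hn⟩
      obtain ⟨h3, h4⟩ := hm0 m a' b' ha' hb'
      rw [h3, h4] at hn
      exact hn hpD
  · -- multiplicative
    have hwt : wt P A = 1 := by
      unfold wt
      exact if_neg hPA
    have hpA : ¬ (p : ℤ) ∣ hv (4 * k) A a b := by
      intro h3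
      have := hkA 1 (by rwa [pow_one])
      rw [pow_one] at this
      exact hPA this
    rw [hwt]
    unfold condExp
    rw [if_neg]
    · split_ifs
      · exact le_rfl
      · norm_num
    · rintro ⟨m, a', b', ha', hb', hn⟩
      rcases Nat.eq_zero_or_pos m with rfl | hmpos
      · simp at ha' hb'
        rw [← ha', ← hb'] at hn
        exact hn hpD
      · apply hpA
        rw [ha']
        exact Dvd.dvd.mul_right (dvd_pow_self _ (by omega)) _

end Pool.Agent.W921.FR.LOC
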